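import Pool.Agent.L0h14.DD.Defs

/-!
# Künneth projectors
-/

universe u v w u' v'

open CategoryTheory

set_option autoImplicit false

namespace Pool.Agent.L0h14.CK

variable {𝒱 : Type u} [Category.{v} 𝒱] [Preadditive 𝒱] [Linear ℚ 𝒱] {F : Type w} [Field F]

/-- The `i`-th Künneth projector of `X` is algebraic. -/
def CorrTheory.Kunneth (T : CorrTheory 𝒱 F) (X : 𝒱) (i : ℤ) : Prop :=
  ∃ g ∈ T.gr X X 0, ∀ j, ∀ x ∈ T.deg X j, T.H.map g x = if i = j then x else 0

/-- All Künneth projectors of `X` are algebraic (conjecture `C`). -/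
def CorrTheory.ConjectureC (T : CorrTheory 𝒱 F) (X : 𝒱) : Prop := ∀ i : ℤ, T.Kunneth X i

/-- The projector to the cohomology of even degree is algebraic (conjecture `C⁺`). -/
def CorrTheory.ConjectureCPlus (T : CorrTheory 𝒱 F) (X : 𝒱) : Prop :=
  ∃ g ∈ T.gr X X 0, ∀ j, ∀ x ∈ T.deg X j, T.H.map g x = if Even j then x else 0

/-- The correspondences of degree zero from `X` to itself which are sums of correspondences which factor through varieties
all of whose Künneth projectors are algebraic. -/
def CorrTheory.through (T : CorrTheory 𝒱 F) (X : 𝒱) : AddSubgroup (X ⟶ X) :=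
  AddSubgroup.closure {f | ∃ (Z : 𝒱) (i : ℤ), T.ConjectureC Z ∧ ∃ a ∈ T.gr X Z i, ∃ b ∈ T.gr Z X (-i), a ≫ b = f}

/-- `H^i(X)` comes from varieties all of whose Künneth projectors are algebraic: the identity of `H^i(X)` is given by a sum of
correspondences which factor through such varieties. -/
def CorrTheory.FromC (T : CorrTheory 𝒱 F) (X : 𝒱) (i : ℤ) : Prop :=
  ∃ q ∈ T.through X, ∀ x ∈ T.deg X i, T.H.map q x = x

/-- `X` is a direct factor of `Y` by correspondences of degree zero. This is so if `Y → X` is dominant and `dim X = dim Y`. -/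
def CorrTheory.DirectFactor (T : CorrTheory 𝒱 F) (X Y : 𝒱) : Prop :=
  ∃ u ∈ T.gr X Y 0, ∃ v ∈ T.gr Y X 0, u ≫ v = 𝟙 X

/-- Two theorems on the Künneth components of small degree:

* the Künneth projectors of degree `0` and `1` are algebraic (Kleiman; Murre), as `H^1(X)` is the first cohomology of the Albanese
variety, and is a direct factor of the first cohomology of a curve in `X`;
* there is a correspondence which acts as the identity on the classes of divisors and as zero on `H^j(X)`, `j ≠ 2`: a sum of
products of divisors and of curves (Matsusaka: divisors which are numerically trivial are homologically trivial). -/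
structure CorrTheory.SmallDegree (T : CorrTheory 𝒱 F) : Prop where
  kleiman : ∀ (X : 𝒱) (i : ℤ), i ≤ 1 → T.Kunneth X i
  matsusaka : ∀ X : 𝒱, ∃ g ∈ T.gr X X 0, (∀ x ∈ T.div X, T.H.map g x = x) ∧
    ∀ j, j ≠ 2 → ∀ x ∈ T.deg X j, T.H.map g x = 0

end Pool.Agent.L0h14.CK

namespace Pool.Agent.L0h14.DD

open Pool.Agent.L0h14.CK

variable {𝒱 : Type u} [Category.{v} 𝒱] [Preadditive 𝒱] [Linear ℚ 𝒱] {F : Type w} [Field F]

/-- The fixed part of the second cohomology of the geometric generic fibre, the quotient of `H^2(model A)` by the kernel `van A` of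
the restriction, comes from varieties all of whose Künneth projectors are algebraic. -/
def Spread.FixedPartFromC {T : CorrTheory 𝒱 F} {𝒲 : Type u'} [Category.{v'} 𝒲] (Φ : Spread T 𝒲) (A : 𝒲) : Prop :=
  ∃ q ∈ T.through (Φ.model A), ∀ x ∈ T.deg (Φ.model A) 2, x - T.H.map q x ∈ Φ.van A

end Pool.Agent.L0h14.DD
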