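import Pool.Agent.L0h14.CC.Defs
import Pool.Agent.L0h14.CK.Surf

/-!
# Künneth projectors of varieties which are fibred over a curve
-/

universe u v w u' v'

open CategoryTheory

set_option autoImplicit false

namespace Pool.Agent.L0h14.CK

open Pool.Agent.L0h14.DD

variable {𝒱 : Type u} [Category.{v} 𝒱] [Preadditive 𝒱] [Linear ℚ 𝒱] {F : Type w} [Field F]
variable {T : CorrTheory 𝒱 F}

theorem map_sub_apply' {X Y : 𝒱} (f g : X ⟶ Y) (x : T.H.obj X) : T.H.map (f - g) x = T.H.map f x - T.H.map g x := by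
  have := T.additive
  rw [T.H.map_sub]
  rfl

theorem map_add_apply' {X Y : 𝒱} (f g : X ⟶ Y) (x : T.H.obj X) : T.H.map (f + g) x = T.H.map f x + T.H.map g x := by
  have := T.additive
  rw [T.H.map_add]
  rfl

theorem map_id_apply' {X : 𝒱} (x : T.H.obj X) : T.H.map (𝟙 X) x = x := by
  rw [T.H.map_id]
  rfl

theorem map_sum_apply' {X Y : 𝒱} {ι : Type*} (s : Finset ι) (f : ι → (X ⟶ Y)) (x : T.H.obj X) :
    T.H.map (∑ i ∈ s, f i) x = ∑ i ∈ s, T.H.map (f i) x := by
  classical
  have := T.additive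
  induction s using Finset.induction_on with
  | empty =>
    rw [Finset.sum_empty, Finset.sum_empty, T.H.map_zero]
    rfl
  | insert a s ha ih => rw [Finset.sum_insert ha, Finset.sum_insert ha, map_add_apply', ih]

/-- Duality of Künneth projectors. -/
theorem kunneth_dual {X : 𝒱} {i : ℤ} (h : T.Kunneth X i) : T.Kunneth X (2 * T.dim X - i) := by
  obtain ⟨g, hg, hact⟩ := h
  refine ⟨T.tp g, tp_gr0 hg, fun j x hx => ?_⟩
  by_cases hj : 2 * T.dim X - i = j
  · rw [if_pos hj]
    have h1 := tp_zero (k := i) (f := g - 𝟙 X) ((T.gr X X 0).sub_mem hg (T.one_gr X)) (fun y hy => by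
      rw [map_sub_apply', map_id_apply', hact i y hy, if_pos rfl, sub_self]) x (by rwa [hj])
    rw [map_sub, tp_one, map_sub_apply', map_id_apply', sub_eq_zero] at h1
    exact h1
  · rw [if_neg hj]
    refine tp_zero (k := 2 * T.dim X - j) hg (fun y hy => ?_) x (by rwa [sub_sub_cancel])
    rw [hact _ y hy, if_neg (by omega)]

/-- If the Künneth projectors below the middle are algebraic then all are. -/
theorem conjectureC_of_lt {X : 𝒱} (h : ∀ i < T.dim X, T.Kunneth X i) : T.ConjectureC X := by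
  classical
  have hne : ∀ i, i ≠ T.dim X → T.Kunneth X i := by
    intro i hi
    rcases lt_or_gt_of_ne hi with h1 | h1
    · exact h i h1
    · have := kunneth_dual (h (2 * T.dim X - i) (by omega))
      rwa [sub_sub_cancel] at this
  intro i
  by_cases hi : i = T.dim X
  · subst hi
    choose! p hp hact using hne
    let s := (Finset.Icc 0 (2 * T.dim X)).erase (T.dim X)
    refine ⟨𝟙 X - ∑ k ∈ s, p k, (T.gr X X 0).sub_mem (T.one_gr X)
      ((T.gr X X 0).sum_mem fun k hk => hp k (Finset.ne_of_mem_erase hk)), fun j x hx => ?_⟩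
    rw [map_sub_apply', map_id_apply', map_sum_apply', Finset.sum_congr rfl
      (fun k hk => hact k (Finset.ne_of_mem_erase hk) j x hx), Finset.sum_ite_eq']
    by_cases hj : j ∈ Finset.Icc 0 (2 * T.dim X)
    · by_cases hj' : T.dim X = j
      · rw [if_pos hj', if_neg, sub_zero]
        rw [hj']
        exact Finset.notMem_erase j _
      · rw [if_neg hj', if_pos, sub_self]
        exact Finset.mem_erase.mpr ⟨fun e => hj' e.symm, hj⟩
    · have hj' : j < 0 ∨ 2 * T.dim X < j := by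
        rw [Finset.mem_Icc] at hj
        omega
      rw [T.deg_bot X j hj'] at hx
      rw [(Submodule.mem_bot F).mp hx]
      split_ifs <;> simp
  · exact hne i hi

/-- Surfaces. -/
theorem conjectureC_surface (hT : T.SmallDegree) {S : 𝒱} (hS : T.dim S ≤ 2) : T.ConjectureC S :=
  conjectureC_of_lt fun i hi => hT.kleiman S i (by omega)

theorem through_gr {X : 𝒱} {f : X ⟶ X} (hf : f ∈ T.through X) : f ∈ T.gr X X 0 := by
  refine AddSubgroup.closure_induction ?_ (T.gr X X 0).zero_mem (fun _ _ _ _ h h' => (T.gr X X 0).add_mem h h')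
    (fun _ _ h => (T.gr X X 0).neg_mem h) hf
  rintro _ ⟨Z, i, -, a, ha, b, hb, rfl⟩
  have := T.comp_gr ha hb
  rwa [add_neg_cancel] at this

/-- The Künneth components of correspondences which factor through varieties with algebraic Künneth projectors are
algebraic. -/
theorem through_component {X : 𝒱} {f : X ⟶ X} (hf : f ∈ T.through X) (k : ℤ) :
    ∃ g ∈ T.gr X X 0, ∀ j, ∀ x ∈ T.deg X j, T.H.map g x = if k = j then T.H.map f x else 0 := by
  have hadd := T.additive
  refine AddSubgroup.closure_induction (p := fun f _ => ∃ g ∈ T.gr X X 0, ∀ j, ∀ x ∈ T.deg X j,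
    T.H.map g x = if k = j then T.H.map f x else 0) ?_ ?_ ?_ ?_ hf
  · rintro _ ⟨Z, i, hZ, a, ha, b, hb, rfl⟩
    obtain ⟨p, hp, hact⟩ := hZ (k + 2 * i)
    refine ⟨a ≫ p ≫ b, ?_, fun j x hx => ?_⟩
    · have := T.comp_gr ha (T.comp_gr hp hb)
      rwa [zero_add, add_neg_cancel] at this
    · rw [map_comp_apply, map_comp_apply, map_comp_apply, hact _ _ (T.deg_map ha x hx)]
      by_cases hj : k = j
      · rw [if_pos hj, if_pos (by omega)]
      · rw [if_neg hj, if_neg (by omega), map_zero]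
  · refine ⟨0, (T.gr X X 0).zero_mem, fun j x _ => ?_⟩
    rw [T.H.map_zero]
    simp
  · rintro f f' - - ⟨g, hg, h⟩ ⟨g', hg', h'⟩
    refine ⟨g + g', (T.gr X X 0).add_mem hg hg', fun j x hx => ?_⟩
    rw [map_add_apply', map_add_apply', h j x hx, h' j x hx]
    split_ifs <;> simp
  · rintro f - ⟨g, hg, h⟩
    refine ⟨-g, (T.gr X X 0).neg_mem hg, fun j x hx => ?_⟩
    have e : ∀ f : X ⟶ X, T.H.map (-f) x = - T.H.map f x := fun f => by
      rw [T.H.map_neg]
      rfl
    rw [e, e, h j x hx]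
    split_ifs <;> simp

/-- The Künneth projectors of a direct factor. -/
theorem conjectureC_of_factor {X Y : 𝒱} {u : X ⟶ Y} {v : Y ⟶ X} (hu : u ∈ T.gr X Y 0) (hv : v ∈ T.gr Y X 0)
    (huv : u ≫ v = 𝟙 X) (hY : T.ConjectureC Y) : T.ConjectureC X := by
  intro i
  obtain ⟨p, hp, hact⟩ := hY i
  refine ⟨u ≫ p ≫ v, ?_, fun j x hx => ?_⟩
  · have := T.comp_gr hu (T.comp_gr hp hv)
    simpa using this
  · have hx' : T.H.map u x ∈ T.deg Y j := by
      have := T.deg_map hu x hx
      rwa [mul_zero, add_zero] at this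
    rw [map_comp_apply, map_comp_apply, hact j _ hx']
    split_ifs
    · rw [← map_comp_apply, huv, map_id_apply']
    · rw [map_zero]

/-- Conjecture `C` implies conjecture `C⁺`. -/
theorem cPlus_of_c {X : 𝒱} (h : T.ConjectureC X) : T.ConjectureCPlus X := by
  classical
  choose p hp hact using h
  refine ⟨∑ k ∈ (Finset.Icc 0 (2 * T.dim X)).filter Even, p k, (T.gr X X 0).sum_mem fun k _ => hp k, fun j x hx => ?_⟩
  rw [map_sum_apply', Finset.sum_congr rfl (fun k _ => hact k j x hx), Finset.sum_ite_eq']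
  by_cases hj : j ∈ Finset.Icc 0 (2 * T.dim X)
  · by_cases he : Even j
    · rw [if_pos he, if_pos (Finset.mem_filter.mpr ⟨hj, he⟩)]
    · rw [if_neg he, if_neg (fun h => he (Finset.mem_filter.mp h).2)]
  · have hj' : j < 0 ∨ 2 * T.dim X < j := by
      rw [Finset.mem_Icc] at hj
      omega
    rw [T.deg_bot X j hj'] at hx
    rw [(Submodule.mem_bot F).mp hx]
    split_ifs <;> rfl

/-- The second Künneth projector of a variety which is fibred over a curve. -/
theorem kunneth_two (hT : T.SmallDegree) {𝒲 : Type u'} [Category.{v'} 𝒲] (Φ : Spread T 𝒲) (A : 𝒲)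
    {q : Φ.model A ⟶ Φ.model A} (hq : q ∈ T.through (Φ.model A))
    (hfix : ∀ x ∈ T.deg (Φ.model A) 2, x - T.H.map q x ∈ Φ.van A) : T.Kunneth (Φ.model A) 2 := by
  obtain ⟨D, α, β, hD, hH⟩ := Φ.picard A
  obtain ⟨a, ha, har⟩ := Φ.lift α
  obtain ⟨b, hb, hbr⟩ := Φ.lift β
  have hP0 : a ≫ b ∈ T.gr (Φ.model A) (Φ.model A) 0 := by
    have := T.comp_gr ha hb
    rwa [add_zero] at this
  have hPt : a ≫ b ∈ T.through (Φ.model A) :=
    AddSubgroup.subset_closure ⟨Φ.model D, 0, conjectureC_surface hT (by omega), a, ha, b, by rwa [neg_zero], rfl⟩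
  obtain ⟨q2, hq2, hq2a⟩ := through_component hq 2
  obtain ⟨P2, hP2, hP2a⟩ := through_component hPt 2
  obtain ⟨E, hE, hEd, hE0⟩ := hT.matsusaka (Φ.model A)
  refine ⟨𝟙 (Φ.model A) - (𝟙 (Φ.model A) - q2) ≫ (𝟙 (Φ.model A) - P2) ≫ (𝟙 (Φ.model A) - E), (T.gr (Φ.model A) (Φ.model A) 0).sub_mem (T.one_gr _)
    (comp_gr00 ((T.gr (Φ.model A) (Φ.model A) 0).sub_mem (T.one_gr _) hq2) (comp_gr00 ((T.gr (Φ.model A) (Φ.model A) 0).sub_mem (T.one_gr _) hP2)
      ((T.gr (Φ.model A) (Φ.model A) 0).sub_mem (T.one_gr _) hE))), fun j x hx => ?_⟩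
  have e : ∀ (f : Φ.model A ⟶ Φ.model A) (y : T.H.obj (Φ.model A)), T.H.map (𝟙 (Φ.model A) - f) y = y - T.H.map f y := fun f y => by
    rw [map_sub_apply', map_id_apply']
  rw [e, map_comp_apply, map_comp_apply, e, e, e]
  by_cases hj : 2 = j
  · subst hj
    rw [if_pos rfl, hq2a 2 x hx, if_pos rfl]
    have hy : x - T.H.map q x ∈ T.deg (Φ.model A) 2 := (T.deg (Φ.model A) 2).sub_mem hx (deg_map0 (through_gr hq) hx)
    rw [hP2a 2 _ hy, if_pos rfl, hEd _ (Φ.leray (α ≫ β) (a ≫ b) hP0 (Φ.comp har hbr) hH _ hy (hfix x hx)), sub_self,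
      sub_zero]
  · rw [if_neg hj, hq2a j x hx, if_neg hj, sub_zero, hP2a j x hx, if_neg hj, sub_zero,
      hE0 j (fun h => hj h.symm) x hx, sub_zero, sub_self]

/-- Künneth projectors of varieties which are fibred over a curve. -/
theorem conjectureC_of_fibration (hT : T.SmallDegree) {𝒲 : Type u'} [Category.{v'} 𝒲] (Φ : Spread T 𝒲) (A : 𝒲)
    (hfix : ∃ q ∈ T.through (Φ.model A), ∀ x ∈ T.deg (Φ.model A) 2, x - T.H.map q x ∈ Φ.van A)
    (hk : ∀ k, 3 ≤ k → k < T.dim (Φ.model A) → ∃ q ∈ T.through (Φ.model A), ∀ x ∈ T.deg (Φ.model A) k, T.H.map q x = x) :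
    T.ConjectureC (Φ.model A) := by
  refine conjectureC_of_lt fun i hi => ?_
  have h1 : i ≤ 1 ∨ i = 2 ∨ 3 ≤ i := by omega
  rcases h1 with h1 | rfl | h1
  · exact hT.kleiman _ i h1
  · obtain ⟨q, hq, hqa⟩ := hfix
    exact kunneth_two hT Φ A hq hqa
  · obtain ⟨q, hq, hqa⟩ := hk i h1 hi
    obtain ⟨g, hg, hga⟩ := through_component hq i
    refine ⟨g, hg, fun j x hx => ?_⟩
    rw [hga j x hx]
    by_cases hj : i = j
    · subst hj
      rw [if_pos rfl, if_pos rfl, hqa x hx]
    · rw [if_neg hj, if_neg hj]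

end Pool.Agent.L0h14.CK
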